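import Pool.Agent.Helper19K9.Ds.Main

/-!
# The height inequality with discriminant term on families of abelian covers of the projective line
# with branch points of degree at most three

Let `F_1, …, F_q` be bihomogeneous forms of bidegrees `(a_j, b_j)` with integral coefficients,
irreducible over `ℚ` and pairwise not proportional, `a_j ≥ 1`. For a rational point `β` of the line
let `D_j(β)` be the set of zeros of `F_j(·, β)` on the line. The coverings
`z_i ^ m_i = c_i ∏_j F_j(x, β) ^ e_ij`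
of the line (`m_i ∣ ∑_j a_j e_ij`; hyperelliptic and superelliptic curves, …) form families of
curves `C_β`. The ramification index of `t : C_β → ℙ¹` above `D_j(β)` is
`n_j = lcm_i (m_i / gcd (m_i, e_ij))`, and `K_C = t^* (K + ∑ (1 - 1 / n_j) D_j)`. For a set `J` of
indices let `D_J` be the sum of the points of `C_β` above the points of the `D_j(β)`, `j ∈ J`. Then
`h_{K_C + D_J}(P) = (∑_{j ∈ J} a_j + ∑_{j ∉ J} (1 - 1 / n_j) a_j - 2) h(x) + O(1)`, `x = t(P)`.

Let `Λ > 0` and `a_j + b_j Λ < 4` for all `j` (for example `a_j + b_j ≤ 3` and `Λ = 1`), and let `S`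
be a finite set of primes. There is a finite set `Z` of points `β`, and for every `ε > 0` there are
`c > 0` and `C` such that for EVERY `β` outside `Z` and all `B ≥ H(β) ^ (1 / Λ)`, for all but
`C B ^ (2 - c)` of the about `B ^ 2` rational points `x` of height at most `B`, ALL such covers
`C_β` (with any numbers `m_i`, `e_ij`, and integers `c_i` all of whose prime factors are in `S`), all
`J`, all points `P` of `C_β` above `x` and all number fields `L` over which `P` is defined satisfy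
`∑_{j ∈ J} (a_j h(x) + b_j h(β)) + ∑_{j ∉ J} (1 - 1 / n_j) (a_j h(x) + b_j h(β))`
`≤ d(L) + N^{(1)}_{D_J, S}(P) + ε (h(x) + h(β))`.
For fixed `β` this is Vojta's inequality `h_{K_C + D_J}(P) ≤ d(P) + N^{(1)}_{D_J, S}(P) + ε h(P)`,
which implies `m_S(D_J, P) + h_{K_C}(P) ≤ d(P) + ε h(P)`, with `2 h(x)` to spare.
-/

set_option autoImplicit false

namespace Pool.Agent.Results.MP_6f1c57_nt.AbelianCoversInFamilies

open MvPolynomial NumberField

/-- Normalised coprime integer coordinates: each point `[x₀ : x₁]` of the projective line over `ℚ`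
has exactly one such pair. -/
def Coord (x : ℤ × ℤ) : Prop := IsCoprime x.1 x.2 ∧ (0 < x.2 ∨ x.2 = 0 ∧ 0 < x.1)

/-- the logarithmic height `log max (|x₀|, |x₁|)` -/
noncomputable def height (x : ℤ × ℤ) : ℝ := Real.log (max x.1.natAbs x.2.natAbs : ℕ)

/-- `F` is bihomogeneous of bidegree `(a, b)` in `(X_0, X_1; X_2, X_3)` -/
def IsBihomogeneous (F : MvPolynomial (Fin 4) ℤ) (a b : ℕ) : Prop :=
  F.IsWeightedHomogeneous (![1, 1, 0, 0] : Fin 4 → ℕ) a ∧
    F.IsWeightedHomogeneous (![0, 0, 1, 1] : Fin 4 → ℕ) b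

/-- the polynomial over the field of rational numbers -/
noncomputable def overQ (F : MvPolynomial (Fin 4) ℤ) : MvPolynomial (Fin 4) ℚ :=
  F.map (Int.castRingHom ℚ)

/-- the value of `F` at the coordinates of the pair `(x, β)` of points -/
noncomputable def value (F : MvPolynomial (Fin 4) ℤ) (x β : ℤ × ℤ) : ℤ :=
  eval ![x.1, x.2, β.1, β.2] F

/-- the ramification index `lcm_i (m_i / gcd (m_i, e_ij))` -/
def ramification {r q : ℕ} (m : Fin r → ℕ) (e : Fin r → Fin q → ℕ) (j : Fin q) : ℕ :=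
  Finset.univ.lcm (fun i => m i / Nat.gcd (m i) (e i j))

/-- the logarithmic discriminant `log |disc L| / [L : ℚ]` -/
noncomputable def logDisc (L : Type) [Field L] [NumberField L] : ℝ :=
  Real.log |(discr L : ℝ)| / Module.finrank ℚ L

/-- the maximal ideals of the ring of integers of `L`, not above `S`, which contain one of the
numbers `f j`, `j ∈ J` -/
def closePlaces (L : Type) [Field L] {q : ℕ} (S : Finset ℕ) (J : Finset (Fin q)) (f : Fin q → ℤ) :
    Set (Ideal (𝓞 L)) :=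
  {P | P.IsMaximal ∧ (∃ j ∈ J, (f j : 𝓞 L) ∈ P) ∧ ∀ p ∈ S, (p : 𝓞 L) ∉ P}

/-- The truncated counting function `N^{(1)}_{D_J, S}` of a point defined over `L`, where the `f j` are
the values of the `F_j`: the sum of `log N(v)` over the finite places `v`, not above `S`, at which
one of the `f j`, `j ∈ J`, is not a unit, divided by `[L : ℚ]`. -/
noncomputable def truncated (L : Type) [Field L] [NumberField L] {q : ℕ} (S : Finset ℕ)
    (J : Finset (Fin q)) (f : Fin q → ℤ) : ℝ :=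
  (∑ᶠ P ∈ closePlaces L S J f, Real.log (Ideal.absNorm P : ℝ)) / Module.finrank ℚ L

/-- The inequality for all covers, all divisors `D_J`, all points above `x` and all number fields
over which they are defined. -/
def Inequality {q : ℕ} (S : Finset ℕ) (F : Fin q → MvPolynomial (Fin 4) ℤ) (a b : Fin q → ℕ)
    (ε : ℝ) (x β : ℤ × ℤ) : Prop :=
  (∀ j, value (F j) x β ≠ 0) ∧
  ∀ (L : Type) [Field L] [NumberField L] (J : Finset (Fin q)) (r : ℕ)
    (m : Fin r → ℕ) (e : Fin r → Fin q → ℕ) (c : Fin r → ℤ) (z : Fin r → L),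
    (∀ i, 1 ≤ m i) → (∀ i, ∀ p : ℕ, p.Prime → (p : ℤ) ∣ c i → p ∈ S) →
    (∀ i, z i ^ m i = (c i : L) * ∏ j, (value (F j) x β : L) ^ e i j) →
    ∑ j, (if j ∈ J then (1 : ℝ) else 1 - 1 / (ramification m e j : ℝ)) *
        (a j * height x + b j * height β) ≤
      logDisc L + truncated L S J (fun j => value (F j) x β) + ε * (height x + height β)

/-- **The height inequality with discriminant term for families of abelian covers: almost all
rational values of the parameter, in every fibre outside a finite set, uniformly in the fibre, with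
one exceptional set for all covers.** -/
theorem result {q : ℕ} (F : Fin q → MvPolynomial (Fin 4) ℤ) (a b : Fin q → ℕ)
    (hbi : ∀ j, IsBihomogeneous (F j) (a j) (b j)) (hirr : ∀ j, Irreducible (overQ (F j)))
    (hdist : ∀ i j, i ≠ j → ¬ Associated (overQ (F i)) (overQ (F j))) (S : Finset ℕ)
    (hS : ∀ p ∈ S, p.Prime) (Λ : ℝ) (hΛ : 0 < Λ) (ha : ∀ j, 1 ≤ a j)
    (hab : ∀ j, (a j : ℝ) + b j * Λ < 4) :
    ∃ Z : Set (ℤ × ℤ), Z.Finite ∧ ∀ ε : ℝ, 0 < ε → ∃ c C : ℝ, 0 < c ∧
      ∀ β : ℤ × ℤ, Coord β → β ∉ Z → ∀ B : ℝ, 1 ≤ B → height β ≤ Λ * Real.log B →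
        {x : ℤ × ℤ | Coord x ∧ height x ≤ Real.log B ∧ ¬ Inequality S F a b ε x β}.Finite ∧
        (({x : ℤ × ℤ | Coord x ∧ height x ≤ Real.log B ∧
          ¬ Inequality S F a b ε x β}.ncard : ℕ) : ℝ) ≤ C * B ^ ((2 : ℝ) - c) := by
  classical
  obtain ⟨Z, hZ, h⟩ := Pool.Agent.Helper19K9.Ds.main_kum F a b hbi hirr hdist S hS Λ hΛ ha hab
  refine ⟨Z, hZ, fun ε hε => ?_⟩
  obtain ⟨c, hc, C, hC, h⟩ := h ε hε
  refine ⟨min c 2, 4 * C, lt_min hc (by norm_num), fun β hβ hβZ B hB hβB => ?_⟩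
  have hB0 : 0 < B := by linarith
  set N : ℕ := ⌈B⌉₊ with hN
  have hBN : B ≤ N := Nat.le_ceil B
  have hN1' : (1 : ℝ) ≤ N := by linarith
  have hN1 : 1 ≤ N := by exact_mod_cast hN1'
  have hN2 : (N : ℝ) ≤ 2 * B := by
    have := Nat.ceil_lt_add_one hB0.le
    linarith
  have hpos : ∀ x : ℤ × ℤ, Coord x → 1 ≤ max x.1.natAbs x.2.natAbs := fun x hx =>
    Pool.Agent.Helper19K9.Fb.ht_pos hx.1
  -- the point `β`
  have hy : (Pool.Agent.Helper19K9.Fb.ht β : ℝ) ≤ (N : ℝ) ^ Λ := by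
    have h1 : (0 : ℝ) < (Pool.Agent.Helper19K9.Fb.ht β : ℝ) := by
      exact_mod_cast hpos β hβ
    have h2 : Real.log (Pool.Agent.Helper19K9.Fb.ht β : ℝ) ≤ Λ * Real.log B := hβB
    have h3 : (Pool.Agent.Helper19K9.Fb.ht β : ℝ) ≤ B ^ Λ := by
      rw [← Real.exp_log h1, Real.rpow_def_of_pos hB0, mul_comm (Real.log B)]
      exact Real.exp_le_exp.2 h2
    exact h3.trans (Real.rpow_le_rpow hB0.le hBN hΛ.le)
  have hcount := h N hN1 β ⟨hβ.1, hβZ⟩ hy
  have hsub : {x : ℤ × ℤ | Coord x ∧ height x ≤ Real.log B ∧ ¬ Inequality S F a b ε x β} ⊆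
      Pool.Agent.Helper19K9.Fb.fset N
        (fun x => ¬ Pool.Agent.Helper19K9.Ds.Good S F a b ε x β) := by
    rintro x ⟨hx, hxB, hbad⟩
    refine ⟨?_, hx.1, fun hgood => hbad ⟨hgood.1, ?_⟩⟩
    · have h1 : (0 : ℝ) < (Pool.Agent.Helper19K9.Fb.ht x : ℝ) := by exact_mod_cast hpos x hx
      have h2 : (Pool.Agent.Helper19K9.Fb.ht x : ℝ) ≤ B := (Real.log_le_log_iff h1 hB0).1 hxB
      exact_mod_cast h2.trans hBN
    · intro L _ _ J r m e cc z hm hcc hz
      have h1 := hgood.2 L J r m e cc z hm hcc hz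
      rw [sub_le_iff_le_add] at h1
      exact h1
  have hfin := Pool.Agent.Helper19K9.Fb.fset_finite N
      (fun x => ¬ Pool.Agent.Helper19K9.Ds.Good S F a b ε x β)
  refine ⟨hfin.subset hsub, ?_⟩
  have h1 : (({x : ℤ × ℤ | Coord x ∧ height x ≤ Real.log B ∧
      ¬ Inequality S F a b ε x β}.ncard : ℕ) : ℝ) ≤ C * (N : ℝ) ^ ((2 : ℝ) - c) := by
    refine le_trans ?_ hcount
    exact_mod_cast Set.ncard_le_ncard hsub hfin
  refine h1.trans ?_
  have h2 : (N : ℝ) ^ ((2 : ℝ) - c) ≤ (N : ℝ) ^ ((2 : ℝ) - min c 2) := by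
    refine Real.rpow_le_rpow_of_exponent_le hN1' ?_
    have := min_le_left c 2
    linarith
  have h3 : (0 : ℝ) ≤ (2 : ℝ) - min c 2 := by
    have := min_le_right c 2
    linarith
  have h4 : (N : ℝ) ^ ((2 : ℝ) - min c 2) ≤ (2 * B) ^ ((2 : ℝ) - min c 2) :=
    Real.rpow_le_rpow (by linarith) hN2 h3
  have h5 : ((2 : ℝ) * B) ^ ((2 : ℝ) - min c 2) ≤ 4 * B ^ ((2 : ℝ) - min c 2) := by
    rw [Real.mul_rpow (by norm_num) hB0.le]
    refine mul_le_mul_of_nonneg_right ?_ (by positivity)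
    calc (2 : ℝ) ^ ((2 : ℝ) - min c 2) ≤ (2 : ℝ) ^ (2 : ℝ) := by
          refine Real.rpow_le_rpow_of_exponent_le (by norm_num) ?_
          have : 0 < min c 2 := lt_min hc (by norm_num)
          linarith
      _ = 4 := by norm_num
  calc C * (N : ℝ) ^ ((2 : ℝ) - c) ≤ C * (4 * B ^ ((2 : ℝ) - min c 2)) :=
        mul_le_mul_of_nonneg_left (h2.trans (h4.trans h5)) hC.le
    _ = 4 * C * B ^ ((2 : ℝ) - min c 2) := by ring

end Pool.Agent.Results.MP_6f1c57_nt.AbelianCoversInFamilies
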