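import Pool.Agent.Helper19K9.Ds.AeMain

/-!
# The height inequality with discriminant term near almost every real number, for all curves of a
# family of abelian covers of the projective line at once

Let `F_1, …, F_q` be bihomogeneous forms of bidegrees `(a_j, b_j)` with integral coefficients,
irreducible over `ℚ` and pairwise not proportional, `1 ≤ a_j ≤ 3`, `b_j` arbitrary. For a rational
point `β` of the line let `D_j(β)` be the set of zeros of `F_j(·, β)` on the line. The coverings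
`z_i ^ m_i = c_i ∏_j F_j(x, β) ^ e_ij`
of the line (`m_i ∣ ∑_j a_j e_ij`; hyperelliptic and superelliptic curves, …) form families of
curves `C_β`. The ramification index of `t : C_β → ℙ¹` above `D_j(β)` is
`n_j = lcm_i (m_i / gcd (m_i, e_ij))`, and `K_C = t^* (K + ∑ (1 - 1 / n_j) D_j)`. For a set `J` of
indices let `D_J` be the sum of the points of `C_β` above the points of the `D_j(β)`, `j ∈ J`. Then
`h_{K_C + D_J}(P) = (∑_{j ∈ J} a_j + ∑_{j ∉ J} (1 - 1 / n_j) a_j - 2) h(x) + O(1)`, `x = t(P)`.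

Let `S` be a finite set of primes. There are a finite set `Z` of points `β` and `δ(ε) > 0` such that
for almost every real number `ξ`, for all `ε > 0` and all `A`, for all but finitely many rational
numbers `x` with `|ξ - x| ≤ A H(x) ^ (-2 + δ(ε))` (for example the convergents of `ξ`), ALL rational
points `β` outside `Z` with `H(β) ≤ H(x) ^ δ(ε)`, ALL the covers `C_β` (with any numbers `m_i`, `e_ij`,
and integers `c_i` all of whose prime factors are in `S`), all `J`, all points `P` of `C_β` above `x`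
and all number fields `L` over which `P` is defined satisfy
`∑_{j ∈ J} (a_j h(x) + b_j h(β)) + ∑_{j ∉ J} (1 - 1 / n_j) (a_j h(x) + b_j h(β))`
`≤ d(L) + N^{(1)}_{D_J, S}(P) + ε (h(x) + h(β))`.
For fixed `β` this is Vojta's inequality `h_{K_C + D_J}(P) ≤ d(P) + N^{(1)}_{D_J, S}(P) + ε h(P)`,
which implies `m_S(D_J, P) + h_{K_C}(P) ≤ d(P) + ε h(P)`, with `2 h(x)` to spare.
-/

set_option autoImplicit false

namespace Pool.Agent.Results.MP_6f1c57_nt.AllCurvesOfAFamily

open MvPolynomial NumberField MeasureTheory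

/-- Normalised coprime integer coordinates: each point `[x₀ : x₁]` of the projective line over `ℚ`
has exactly one such pair. -/
def Coord (x : ℤ × ℤ) : Prop := IsCoprime x.1 x.2 ∧ (0 < x.2 ∨ x.2 = 0 ∧ 0 < x.1)

/-- the height `max (|x₀|, |x₁|)` -/
def absHeight (x : ℤ × ℤ) : ℕ := max x.1.natAbs x.2.natAbs

/-- the logarithmic height -/
noncomputable def height (x : ℤ × ℤ) : ℝ := Real.log (absHeight x)

/-- `x` is a rational number with `|ξ - x| ≤ A H(x) ^ (-2 + δ)` -/
def Near (A δ ξ : ℝ) (x : ℤ × ℤ) : Prop :=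
  x.2 ≠ 0 ∧ |ξ - (x.1 : ℝ) / x.2| ≤ A * (absHeight x : ℝ) ^ (-2 + δ)

/-- `F` is bihomogeneous of bidegree `(a, b)` in `(X_0, X_1; X_2, X_3)` -/
def IsBihomogeneous (F : MvPolynomial (Fin 4) ℤ) (a b : ℕ) : Prop :=
  F.IsWeightedHomogeneous (![1, 1, 0, 0] : Fin 4 → ℕ) a ∧
    F.IsWeightedHomogeneous (![0, 0, 1, 1] : Fin 4 → ℕ) b

/-- the polynomial over the field of rational numbers -/
noncomputable def overQ (F : MvPolynomial (Fin 4) ℤ) : MvPolynomial (Fin 4) ℚ :=
  F.map (Int.castRingHom ℚ)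

/-- the value of `F` at the coordinates of the pair `(x, β)` of points -/
noncomputable def value (F : MvPolynomial (Fin 4) ℤ) (x β : ℤ × ℤ) : ℤ :=
  eval ![x.1, x.2, β.1, β.2] F

/-- the ramification index `lcm_i (m_i / gcd (m_i, e_ij))` -/
def ramification {r q : ℕ} (m : Fin r → ℕ) (e : Fin r → Fin q → ℕ) (j : Fin q) : ℕ :=
  Finset.univ.lcm (fun i => m i / Nat.gcd (m i) (e i j))

/-- the logarithmic discriminant `log |disc L| / [L : ℚ]` -/
noncomputable def logDisc (L : Type) [Field L] [NumberField L] : ℝ :=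
  Real.log |(discr L : ℝ)| / Module.finrank ℚ L

/-- the maximal ideals of the ring of integers of `L`, not above `S`, which contain one of the
numbers `f j`, `j ∈ J` -/
def closePlaces (L : Type) [Field L] {q : ℕ} (S : Finset ℕ) (J : Finset (Fin q)) (f : Fin q → ℤ) :
    Set (Ideal (𝓞 L)) :=
  {P | P.IsMaximal ∧ (∃ j ∈ J, (f j : 𝓞 L) ∈ P) ∧ ∀ p ∈ S, (p : 𝓞 L) ∉ P}

/-- The truncated counting function `N^{(1)}_{D_J, S}` of a point defined over `L`, where the `f j` are
the values of the `F_j`: the sum of `log N(v)` over the finite places `v`, not above `S`, at which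
one of the `f j`, `j ∈ J`, is not a unit, divided by `[L : ℚ]`. -/
noncomputable def truncated (L : Type) [Field L] [NumberField L] {q : ℕ} (S : Finset ℕ)
    (J : Finset (Fin q)) (f : Fin q → ℤ) : ℝ :=
  (∑ᶠ P ∈ closePlaces L S J f, Real.log (Ideal.absNorm P : ℝ)) / Module.finrank ℚ L

/-- The inequality for all covers, all divisors `D_J`, all points above `x` and all number fields
over which they are defined. -/
def Inequality {q : ℕ} (S : Finset ℕ) (F : Fin q → MvPolynomial (Fin 4) ℤ) (a b : Fin q → ℕ)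
    (ε : ℝ) (x β : ℤ × ℤ) : Prop :=
  (∀ j, value (F j) x β ≠ 0) ∧
  ∀ (L : Type) [Field L] [NumberField L] (J : Finset (Fin q)) (r : ℕ)
    (m : Fin r → ℕ) (e : Fin r → Fin q → ℕ) (c : Fin r → ℤ) (z : Fin r → L),
    (∀ i, 1 ≤ m i) → (∀ i, ∀ p : ℕ, p.Prime → (p : ℤ) ∣ c i → p ∈ S) →
    (∀ i, z i ^ m i = (c i : L) * ∏ j, (value (F j) x β : L) ^ e i j) →
    ∑ j, (if j ∈ J then (1 : ℝ) else 1 - 1 / (ramification m e j : ℝ)) *
        (a j * height x + b j * height β) ≤
      logDisc L + truncated L S J (fun j => value (F j) x β) + ε * (height x + height β)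

/-- **The height inequality with discriminant term near almost every real number, for all curves of
a family at once.** -/
theorem result {q : ℕ} (F : Fin q → MvPolynomial (Fin 4) ℤ) (a b : Fin q → ℕ)
    (hbi : ∀ j, IsBihomogeneous (F j) (a j) (b j)) (hirr : ∀ j, Irreducible (overQ (F j)))
    (hdist : ∀ i j, i ≠ j → ¬ Associated (overQ (F i)) (overQ (F j))) (S : Finset ℕ)
    (hS : ∀ p ∈ S, p.Prime) (ha : ∀ j, 1 ≤ a j) (ha3 : ∀ j, a j ≤ 3) :
    ∃ Z : Set (ℤ × ℤ), Z.Finite ∧ ∃ δ : ℝ → ℝ, (∀ ε, 0 < ε → 0 < δ ε) ∧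
      ∀ᵐ ξ : ℝ, ∀ ε : ℝ, 0 < ε → ∀ A : ℝ,
        {w : (ℤ × ℤ) × (ℤ × ℤ) | Coord w.1 ∧ Coord w.2 ∧ w.2 ∉ Z ∧
          height w.2 ≤ δ ε * height w.1 ∧ Near A (δ ε) ξ w.1 ∧
          ¬ Inequality S F a b ε w.1 w.2}.Finite := by
  classical
  obtain ⟨Z, hZ, δ, hδ, h⟩ := Pool.Agent.Helper19K9.Ds.kum_ae F a b hbi hirr hdist S hS ha ha3
  refine ⟨Z, hZ, δ, hδ, ?_⟩
  filter_upwards [h] with ξ hξ ε hε A
  refine (hξ ε A hε).subset ?_
  rintro q ⟨h1, h2, h3, h4, h5, h6⟩
  refine ⟨h1.1, h2.1, h3, ?_, fun hgood => h6 ⟨hgood.1, ?_⟩, h5⟩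
  · have hx : (0 : ℝ) < (Pool.Agent.Helper19K9.Fb.ht q.1 : ℝ) := by
      exact_mod_cast Pool.Agent.Helper19K9.Fb.ht_pos h1.1
    have hy : (0 : ℝ) < (Pool.Agent.Helper19K9.Fb.ht q.2 : ℝ) := by
      exact_mod_cast Pool.Agent.Helper19K9.Fb.ht_pos h2.1
    rw [← Real.exp_log hy, Real.rpow_def_of_pos hx, mul_comm (Real.log _)]
    exact Real.exp_le_exp.2 h4
  · intro L _ _ J r m e cc z hm hcc hz
    have h7 := hgood.2 L J r m e cc z hm hcc hz
    rw [sub_le_iff_le_add] at h7
    exact h7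

end Pool.Agent.Results.MP_6f1c57_nt.AllCurvesOfAFamily
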