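import Pool.Agent.Helper19K9.Dd.Main
import Pool.Agent.Helper19K9.Dd.El
import Pool.Agent.Helper19K9.Dd.Gen
import Pool.Agent.Helper19K9.Dd.Mink
import Pool.Agent.Helper19K9.Dd.Uniq
import Pool.Agent.Helper19K9.Dd.Gcnt
import Pool.Agent.Helper19K9.Dd.Sym
import Pool.Agent.Helper90K9.Dd.Fac

/-!
# Vojta's height inequality for maps with arbitrary branch points: the discriminants of the fields
# generated by almost all algebraic numbers of degree `r`

Let `C` be a smooth projective curve over a number field and `t : C → ℙ¹` any finite map, of degree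
`N` over `ℚ`. Nothing is assumed on the branch points of `t`. Let `F_1, …, F_q` (`q ≥ 0`) be integral
polynomials, irreducible over `ℚ` and pairwise not proportional, of degrees `n_j ≤ 2 r + 1`, where
`r ≥ 2`; let `D_j` be the reduced fibre of `t` over the zeros of `F_j` and `D = ∑ D_j`. As in
`EveryMapLargeDegree`, `A` is the ring of functions with poles only over `∞`, and
`y_{j 0} = F_j(t), y_{j 1}, …` are generators of the ideal of `D_j` (the radical of `(F_j(t))`), so that
`μ = (∑_j dim (A / (y_{j 0}, y_{j 1}, …))) / N = (deg D) / N`.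

We prove that for every `ε > 0` there are `c > 0` and a set `E` of integral polynomials, with at most
`C B ^ (r + 1 - c)` elements of degree at most `r` with coefficients of absolute value at most `B`, for
every `B ≥ 1`, such that for every curve and map as above there is a constant `c_A` with: if `f ∉ E`
is irreducible of degree `r` and `x` is a root of `f`, then ALL points `P` of `C` with `t(P) = x`, all
number fields `L ⊇ ℚ(x)` over which `P` is defined and all finite sets `S` of primes satisfy
`m_S(D, P) + (∑_j n_j - μ + 4 (r - 1) / (r + 2)) h(x) ≤ d(L) + ε h(x) + ∑_{p ∈ S} log p + c_A`.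

Here `∑_j n_j - μ ≥ 0` is the contribution of the ramification of `t` over the zeros of the `F_j`. The
main point is the new term `4 (r - 1) / (r + 2)`. For `q = 0`, `C = ℙ¹`, `L = ℚ(x)` the inequality is
`d(ℚ(x)) ≥ (4 (r - 1) / (r + 2) - ε) h(x) - c` for almost all algebraic numbers `x` of degree `r`. As
`h_{K_C}(P) = ((2 g - 2) / N) h(x) + O(√h(x))`, where now `N = deg t`, this gives Vojta's inequality
`m_S(D, P) + h_{K_C}(P) ≤ d(P) + ε h(P) + c_S`
for all points `P` above almost all `x` of degree `r` as soon as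
`(2 g - 2) / N ≤ ∑_j n_j - μ + 4 (r - 1) / (r + 2)`; in particular for EVERY map `t` of degree
`N ≥ (g - 1) (r + 2) / (2 (r - 1))` and every reduced divisor `D` whose points have images of degree
at most `2 r + 1`. For example: every `N ≥ 2 g - 2` if `r = 2`, every `N ≥ g - 1` if `r = 4`; if `C`
has no map to `ℙ¹` of degree less than `(g + 2) / 2`, as the general curve of genus `g ≥ 2`, then ALL
maps `t` and all `r ≥ g`.

Proof. By Minkowski's theorem a field `K` of degree `r` and discriminant `Δ` contains an integer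
`a ∉ ℚ` whose conjugates are at most `C |Δ| ^ (1 / (2 (r - 1)))` (W. M. Schmidt). There are at most
`C T ^ ((m - 1) (m + 2) / 2)`, `T = |Δ| ^ (1 / (2 (r - 1)))`, possibilities for the minimal polynomial `g`
of `r a - Tr a`, where `m ≥ 2`, `m ∣ r`, is its degree. A polynomial `f` with a root which generates
`K` has a monic factor of degree `r / m` over `ℚ[X] / (g)`, whose coefficients have (relative) height at
most `2 ^ r M(f)`. There are at most `C B ^ (2 + η)` such elements, by the uniform counts of ideals
and units of the starting library, and the factor determines `f` up to the sign. The number of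
`f` with coefficients at most `B` with `|Δ| ≤ B ^ (4 (r - 1) / (r + 2) - ε)` is therefore at most
`C ∑_m B ^ ((m - 1) (m + 2) / (r + 2) + 2 r / m - ε / (2 (r - 1)))`, and the exponents are at most
`r + 1 - ε / (2 (r - 1))`, because
`m (r + 2) (r + 1) - m (m - 1) (m + 2) - 2 r (r + 2) = (r - m) (m ^ 2 + (r + 1) m - 2 r - 4) ≥ 0`.
Now use `EveryMapLargeDegree`.
-/

set_option autoImplicit false

namespace Pool.Agent.Results.MP_6f1c57_nt.EveryBranchLocus

open Polynomial IsDedekindDomain NumberField IntermediateField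

/-- The absolute logarithmic Weil height `h(x)`. -/
noncomputable def height {K : Type} [Field K] [NumberField K] (x : K) : ℝ :=
  (1 / (Module.finrank ℚ K : ℝ)) *
    ((∑ w : InfinitePlace K, (w.mult : ℝ) * Real.log (max 1 (w x))) +
      ∑ᶠ v : HeightOneSpectrum (𝓞 K), Real.log (max 1 (FinitePlace.mk v x)))

/-- the polynomial over the field of rational numbers -/
noncomputable def overQ (F : ℤ[X]) : ℚ[X] := F.map (Int.castRingHom ℚ)

/-- the function `t` -/
noncomputable def coord (A : Type) [CommRing A] [Algebra ℚ[X] A] : A := algebraMap ℚ[X] A X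

/-- the function `F(t)` -/
noncomputable def pullback (A : Type) [CommRing A] [Algebra ℚ[X] A] (F : ℤ[X]) : A :=
  algebraMap ℚ[X] A (overQ F)

/-- `max (0, - log max_i c_i)` -/
noncomputable def minusLog {s : ℕ} (c : Fin (s + 1) → ℝ) : ℝ := max 0 (-Real.log (⨆ i, c i))

open Classical in
/-- The proximity function `m_S(D, P)`: the sum over the infinite places `w` (with
`mult w = [L_w : ℝ]`) and the primes `v` above the primes of `S` of the local heights
`∑_j max (0, - log max_i |y_{j i}(P)|)`, divided by `[L : ℚ]`. The absolute values are normalised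
so that the product formula holds: `|b|_v = N(v) ^ (- v(b))`. -/
noncomputable def proximity {A : Type} [CommRing A] (S : Finset ℕ) {q : ℕ}
    (u : Fin q → ℕ) (y : ∀ j, Fin (u j + 1) → A)
    (L : Type) [Field L] [NumberField L] (φ : A →+* L) : ℝ :=
  ((∑ w : InfinitePlace L, (w.mult : ℝ) * ∑ j, minusLog (fun i => w (φ (y j i)))) +
    ∑ᶠ v : HeightOneSpectrum (𝓞 L), if ∃ p ∈ S, (p : 𝓞 L) ∈ v.asIdeal then
      ∑ j, minusLog (fun i => FinitePlace.mk v (φ (y j i))) else 0) / Module.finrank ℚ L

/-- The logarithmic discriminant `d(L) = log |disc L| / [L : ℚ]`. -/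
noncomputable def logDisc (L : Type) [Field L] [NumberField L] : ℝ :=
  Real.log |(NumberField.discr L : ℝ)| / Module.finrank ℚ L

/-- `∑_j deg F_j - (∑_j dim (A / (y_{j 0}, y_{j 1}, …))) / N`, where `N` is the rank of `A` over
`ℚ[t]`: the part of `2 + (deg K_C) / N` due to the ramification over the zeros of the `F_j`. -/
noncomputable def degree {A : Type} [CommRing A] [Algebra ℚ A] [Algebra ℚ[X] A] {q : ℕ}
    (F : Fin q → ℤ[X]) (u : Fin q → ℕ) (y : ∀ j, Fin (u j + 1) → A) : ℝ :=
  ∑ j, ((F j).natDegree : ℝ) -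
    (∑ j, (Module.finrank ℚ (A ⧸ Ideal.span (Set.range (y j))) : ℝ)) / Module.finrank ℚ[X] A

/-- the polynomials of the set `E`, of degree at most `r`, with coefficients of absolute value at
most `B` -/
def InBox (E : Set ℤ[X]) (r B : ℕ) : Set ℤ[X] := {f | f ∈ E ∧ f.natDegree ≤ r ∧ ∀ i, |f.coeff i| ≤ B}

open Classical in
lemma proximity_eq {A : Type} [CommRing A] (S : Finset ℕ) {q : ℕ}
    (u : Fin q → ℕ) (y : ∀ j, Fin (u j + 1) → A)
    (L : Type) [Field L] [NumberField L] (φ : A →+* L)
    (hf : ∀ j, {v : HeightOneSpectrum (𝓞 L) | Pool.Agent.W223.AC.lamF (y j) φ v ≠ 0}.Finite) :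
    proximity S u y L φ = (∑ j, (∑ w : InfinitePlace L, (w.mult : ℝ) *
      Pool.Agent.W223.AC.lamI (y j) φ w + Pool.Agent.W223.AC.mS S (y j) φ)) /
        Module.finrank ℚ L := by
  unfold proximity
  refine congrArg (fun t : ℝ => t / Module.finrank ℚ L) ?_
  rw [Finset.sum_add_distrib]
  congr 1
  · rw [Finset.sum_comm]
    refine Finset.sum_congr rfl fun w _ => ?_
    rw [Finset.mul_sum]
    rfl
  · unfold Pool.Agent.W223.AC.mS
    rw [← finsum_sum_comm]
    · refine finsum_congr fun v => ?_
      split_ifs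
      · rfl
      · rw [Finset.sum_const_zero]
    · intro j _
      refine (hf j).subset fun v hv => ?_
      rw [Function.mem_support] at hv
      intro h
      apply hv
      rw [h, ite_self]

theorem height_eq {K : Type} [Field K] [NumberField K] (x : K) :
    Real.log (Height.mulHeight₁ x) = Module.finrank ℚ K * height x :=
  Pool.Agent.W223.AC.MK.height_eq x

/-- there are finitely many polynomials in a box -/
theorem box_finite (r B : ℕ) : {f : ℤ[X] | f.natDegree ≤ r ∧ ∀ i, |f.coeff i| ≤ B}.Finite := by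
  have hinj : Set.InjOn (fun (f : ℤ[X]) (i : Fin (r + 1)) => f.coeff i)
      {f : ℤ[X] | f.natDegree ≤ r ∧ ∀ i, |f.coeff i| ≤ B} := by
    intro f hf g hg h
    have h1 := Pool.Agent.Helper19K9.Ld.pol_of f hf.1
    have h2 := Pool.Agent.Helper19K9.Ld.pol_of g hg.1
    have h3 : (fun i : Fin (r + 1) => f.coeff i) = fun i : Fin (r + 1) => g.coeff i := h
    rw [← h1, ← h2, h3]
  refine Set.Finite.of_finite_image (f := fun (f : ℤ[X]) (i : Fin (r + 1)) => f.coeff i) ?_ hinj
  refine (Set.Finite.pi' fun _ : Fin (r + 1) => Set.finite_Icc (-(B : ℤ)) B).subset ?_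
  rintro _ ⟨f, hf, rfl⟩ i
  exact abs_le.1 (hf.2 i)

open Pool.Agent.Helper19K9.Dd in
theorem fac' : S_FAC :=
  Pool.Agent.Helper90K9.Dd.fac sym (fun L _ _ x f hf hd hx => Pool.Agent.W469.CV.MH.t L x f hf hd hx)
    (fun _ L _ _ _ _ _ x => Pool.Agent.W223.AC.MK.log_height_ext L x)

/-- **Vojta's height inequality for maps with arbitrary branch points.** Let `r ≥ 2` and let
`F_1, …, F_q`, `q ≥ 0`, be integral polynomials, irreducible over `ℚ` and pairwise not proportional,
of degrees at most `2 r + 1`. For every `ε > 0` there are `c > 0`, `C` and a set `E` of integral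
polynomials such that for all `B ≥ 1` at most `C B ^ (r + 1 - c)` polynomials of `E` have degree at most
`r` and coefficients of absolute value at most `B`, and such that the following holds for all `A`,
`y_{j i}`.

Let `A` be a Dedekind domain which contains `ℚ[t]` and is finite over it, of rank `N` (the ring of
functions of a smooth affine curve which is finite over the `t`-line), and let
`y_{j 0} = F_j(t), y_{j 1}, …, y_{j u_j}` be elements of the radical of the ideal `(F_j(t))`, for
example generators. There is a constant `c_A` such that for all irreducible `f ∉ E` of degree `r`,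
all number fields `k = ℚ(x)` with `f(x) = 0`, all number fields `L ⊇ k`, all points `P = φ` of the
curve over `L` with `t(P) = x` and all finite sets `S` of primes
`m_S(D, P) + (∑_j deg F_j - (∑_j dim (A / (y_{j 0}, y_{j 1}, …))) / N + 4 (r - 1) / (r + 2)) h(x) ≤
d(L) + ε h(x) + ∑_{p ∈ S} log p + c_A`. -/
theorem result (r : ℕ) (hr : 2 ≤ r) {q : ℕ} (F : Fin q → ℤ[X])
    (hirr : ∀ j, Irreducible (overQ (F j)))
    (hdist : ∀ i j, i ≠ j → ¬ Associated (overQ (F i)) (overQ (F j)))
    (hdeg : ∀ j, (F j).natDegree ≤ 2 * r + 1) (ε : ℝ) (hε : 0 < ε) :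
    ∃ (E : Set ℤ[X]) (c C : ℝ), 0 < c ∧
      (∀ B : ℕ, 1 ≤ B → (InBox E r B).Finite ∧
        ((InBox E r B).ncard : ℝ) ≤ C * (B : ℝ) ^ ((r : ℝ) + 1 - c)) ∧
      ∀ (A : Type) [CommRing A] [IsDedekindDomain A] [Algebra ℚ A] [Algebra ℚ[X] A]
        [IsScalarTower ℚ ℚ[X] A] [Module.Finite ℚ[X] A] [FaithfulSMul ℚ[X] A]
        (u : Fin q → ℕ) (y : ∀ j, Fin (u j + 1) → A), (∀ j, y j 0 = pullback A (F j)) →
        (∀ j i, y j i ∈ (Ideal.span {pullback A (F j)}).radical) →
        ∃ cA : ℝ, ∀ f : ℤ[X], f ∉ E → Irreducible f → f.natDegree = r →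
          ∀ (k : Type) [Field k] [NumberField k] (x : k), ℚ⟮x⟯ = ⊤ → aeval x f = 0 →
          ∀ (L : Type) [Field L] [NumberField L] [Algebra k L] (φ : A →+* L),
            φ (coord A) = algebraMap k L x → ∀ S : Finset ℕ, (∀ p ∈ S, p.Prime) →
            proximity S u y L φ + (degree F u y + 4 * ((r : ℝ) - 1) / (r + 2)) * height x ≤
              logDisc L + ε * height x + ∑ p ∈ S, Real.log p + cA := by
  classical
  obtain ⟨E, c, C, hc, hC, hcount, h⟩ := Pool.Agent.Helper19K9.Dd.main4
    (Pool.Agent.Helper19K9.Dd.gen Pool.Agent.Helper19K9.Dd.mink) Pool.Agent.Helper19K9.Dd.gcnt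
    Pool.Agent.Helper19K9.Dd.el fac' Pool.Agent.Helper19K9.Dd.uniq F hirr hdist r hr hdeg hε
  refine ⟨E, c, C, hc, ?_, ?_⟩
  · intro B hB
    have hfin : (InBox E r B).Finite := (box_finite r B).subset fun f hf => hf.2
    refine ⟨hfin, ?_⟩
    rw [Set.ncard_eq_toFinset_card _ hfin]
    exact hcount B hB hfin.toFinset fun f hf => (Set.Finite.mem_toFinset hfin).1 hf
  · intro A _ _ _ _ _ _ _ u y hy0 hyr
    have hn1 : ∀ j, 1 ≤ (F j).natDegree := by
      intro j
      have h1 := (hirr j).natDegree_pos
      unfold overQ at h1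
      rwa [natDegree_map_eq_of_injective (Int.castRingHom ℚ).injective_int] at h1
    have hlam := fun j => Pool.Agent.Helper19K9.Ld.lam_le A (F j) (hn1 j) (u j) (y j) (hy0 j)
      one_pos
    obtain ⟨cA, hcA⟩ := h A u y hy0 hyr
    refine ⟨cA, ?_⟩
    intro f hfE hf hfr k _ _ x hgen hx L _ _ _ φ hφ S hS
    have hfd : f.natDegree = Module.finrank ℚ k :=
      (Pool.Agent.Helper19K9.Dd.finrank_eq hgen hf (by omega) hx).symm
    obtain ⟨h1, h2⟩ := hcA k L φ x f hfE hgen hf hfd hfr hx hφ S hS
    have hk0 : (Module.finrank ℚ k : ℝ) ≠ 0 := by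
      exact_mod_cast (Module.finrank_pos (R := ℚ) (M := k)).ne'
    have hhx : Real.log (Height.mulHeight₁ x) / Module.finrank ℚ k = height x := by
      rw [height_eq, mul_div_cancel_left₀ _ hk0]
    have hprox := proximity_eq S u y L φ fun j => by
      obtain ⟨C', hC', h5⟩ := hlam j
      exact (h5 L φ (h1 j)).1
    rw [hhx, ← hprox] at h2
    exact h2

end Pool.Agent.Results.MP_6f1c57_nt.EveryBranchLocus
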