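import Pool.Agent.Helper19K9.Ld.Main

/-!
# Vojta's height inequality on all curves, for every map to the line, at almost all points of large
# degree

Let `C` be a smooth projective curve over a number field and `t : C → ℙ¹` ANY finite map, of degree
`N` over `ℚ`. Let `F_1, …, F_q` be integral polynomials, irreducible over `ℚ` and pairwise not
proportional, of degrees `n_1, …, n_q`: closed points of the line, whose geometric points are
algebraic numbers of degrees `n_j`. Let `A` be the ring of functions on `C` with poles only over
`∞`, a Dedekind domain, finite over `ℚ[t]`, and let `y_{j 0} = F_j(t), y_{j 1}, …` be generators of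
the radical of the ideal `(F_j(t))`, the ideal of the reduced fibre `D_j` over the zeros of `F_j`;
`D = ∑ D_j`. If `t` is unramified outside the zeros of the `F_j` (this determines the `F_j`, except
that one can add some more), then
`(deg K_C) / N = ∑ n_j - 2 - (∑_j dim (A / (y_{j 0}, y_{j 1}, …))) / N`.

The points `P` of `C` (not over `∞`) over a number field `L` are the homomorphisms `φ : A → L`, and
`λ_v(P) = ∑_j max(0, - log max_i |y_{j i}(P)|_v)` is a Weil function of `D` at `v`.

Let `r ≥ 1` and suppose that all degrees `n_j` are at most `2 r + 1`. Let `ε > 0`. We prove that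
there are `c > 0` and a set `E` of integral polynomials which contains at most `C B ^ (r + 1 - c)`
polynomials of degree at most `r` with coefficients of absolute value at most `B`, for every
`B ≥ 1`, and depends on `F_1, …, F_q`, `r` and `ε` only, such that for every curve and map as above
there is a constant `c_A` with the following property. Let `f ∉ E` be irreducible of degree `r` and
let `x` be a root of `f`. Then ALL points `P` of `C` with `t(P) = x`, all number fields `L ⊇ ℚ(x)`
over which `P` is defined and all finite sets `S` of primes satisfy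
`m_S(D, P) + (2 + (deg K_C) / N) h(x) + d(ℚ(x)) ≤ d(L) + ε h(x) + ∑_{p ∈ S} log p + c_A`.
This is Vojta's inequality `m_S(D, P) + h_{K_C}(P) ≤ d(P) + ε h(P) + c_S`, with `2 h(x) + d(ℚ(x))`
to spare. It holds therefore for every curve `C` and every map `t : C → ℙ¹` unramified over `∞`, at
all points above almost all algebraic numbers of degree `r`, whenever `r` is not smaller than
`(max n_j - 1) / 2`. For `r = 1` these are all curves and maps whose branch points have degree at
most `3`.

Proof. For `f = ∑ a_i X ^ i` let `λ_j = ∑ a_i θ_j ^ i`, where `F_j(θ_j) = 0`: the value of a linear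
form in the `r + 1` variables `a_i` with coefficients in `ℚ(θ_j)`, of which the first
`m = min (n_j, r + 1)` are linearly independent over `ℚ`. Its norm is, up to a constant factor, the
resultant of `f` and `F_j`. Two points `(a_i)` of a cube with sides `c N(I) ^ (1 / n_j)` which differ
only in the first `m` coordinates cannot have values congruent modulo the ideal `I`; hence for at
most `C B ^ (r + 1) N(I) ^ (- m / n_j)` points of the box `0 ≠ λ_j ∈ I`. As `m / n_j > 1 / 2`, the sum
of `N(I) ^ (- m / n_j)` over all ideals `I` whose norm is powerful outside a finite set of primes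
and at least `B ^ η` is small. So for most `f` the resultant has a divisor `≥ B ^ (n_j - η)` which is
a product of different primes, each of which divides the resultant exactly once, and above each of
them there is a prime ideal of `ℚ(x)` of degree one at which `x` is near the zeros of `F_j`. This
gives the truncated second main theorem for `x` over `ℚ(x)`. The theory of the Weil functions on
`C` (library `AC` of this repository), for the coordinate `F_j(t)` in place of `t`, and the base
change of the discriminant from `ℚ(x)` to `L` yield the inequality.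
-/

set_option autoImplicit false

namespace Pool.Agent.Results.MP_6f1c57_nt.EveryMapLargeDegree

open Polynomial IsDedekindDomain NumberField IntermediateField

/-- The absolute logarithmic Weil height `h(x)`. -/
noncomputable def height {K : Type} [Field K] [NumberField K] (x : K) : ℝ :=
  (1 / (Module.finrank ℚ K : ℝ)) *
    ((∑ w : InfinitePlace K, (w.mult : ℝ) * Real.log (max 1 (w x))) +
      ∑ᶠ v : HeightOneSpectrum (𝓞 K), Real.log (max 1 (FinitePlace.mk v x)))

/-- the polynomial over the field of rational numbers -/
noncomputable def overQ (F : ℤ[X]) : ℚ[X] := F.map (Int.castRingHom ℚ)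

/-- the function `t` -/
noncomputable def coord (A : Type) [CommRing A] [Algebra ℚ[X] A] : A := algebraMap ℚ[X] A X

/-- the function `F(t)` -/
noncomputable def pullback (A : Type) [CommRing A] [Algebra ℚ[X] A] (F : ℤ[X]) : A :=
  algebraMap ℚ[X] A (overQ F)

/-- `max (0, - log max_i c_i)` -/
noncomputable def minusLog {s : ℕ} (c : Fin (s + 1) → ℝ) : ℝ := max 0 (-Real.log (⨆ i, c i))

open Classical in
/-- The proximity function `m_S(D, P)`: the sum over the infinite places `w` (with
`mult w = [L_w : ℝ]`) and the primes `v` above the primes of `S` of the local heights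
`∑_j max (0, - log max_i |y_{j i}(P)|)`, divided by `[L : ℚ]`. The absolute values are normalised
so that the product formula holds: `|b|_v = N(v) ^ (- v(b))`. -/
noncomputable def proximity {A : Type} [CommRing A] (S : Finset ℕ) {q : ℕ}
    (u : Fin q → ℕ) (y : ∀ j, Fin (u j + 1) → A)
    (L : Type) [Field L] [NumberField L] (φ : A →+* L) : ℝ :=
  ((∑ w : InfinitePlace L, (w.mult : ℝ) * ∑ j, minusLog (fun i => w (φ (y j i)))) +
    ∑ᶠ v : HeightOneSpectrum (𝓞 L), if ∃ p ∈ S, (p : 𝓞 L) ∈ v.asIdeal then
      ∑ j, minusLog (fun i => FinitePlace.mk v (φ (y j i))) else 0) / Module.finrank ℚ L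

/-- The logarithmic discriminant `d(L) = log |disc L| / [L : ℚ]`. -/
noncomputable def logDisc (L : Type) [Field L] [NumberField L] : ℝ :=
  Real.log |(NumberField.discr L : ℝ)| / Module.finrank ℚ L

/-- `∑_j deg F_j - (∑_j dim (A / (y_{j 0}, y_{j 1}, …))) / N`, where `N` is the rank of `A` over
`ℚ[t]`: the number `2 + (deg K_C) / N` if `t` is unramified outside the zeros of the `F_j`. -/
noncomputable def degree {A : Type} [CommRing A] [Algebra ℚ A] [Algebra ℚ[X] A] {q : ℕ}
    (F : Fin q → ℤ[X]) (u : Fin q → ℕ) (y : ∀ j, Fin (u j + 1) → A) : ℝ :=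
  ∑ j, ((F j).natDegree : ℝ) -
    (∑ j, (Module.finrank ℚ (A ⧸ Ideal.span (Set.range (y j))) : ℝ)) / Module.finrank ℚ[X] A

/-- the polynomials of the set `E`, of degree at most `r`, with coefficients of absolute value at
most `B` -/
def InBox (E : Set ℤ[X]) (r B : ℕ) : Set ℤ[X] := {f | f ∈ E ∧ f.natDegree ≤ r ∧ ∀ i, |f.coeff i| ≤ B}

open Classical in
lemma proximity_eq {A : Type} [CommRing A] (S : Finset ℕ) {q : ℕ}
    (u : Fin q → ℕ) (y : ∀ j, Fin (u j + 1) → A)
    (L : Type) [Field L] [NumberField L] (φ : A →+* L)
    (hf : ∀ j, {v : HeightOneSpectrum (𝓞 L) | Pool.Agent.W223.AC.lamF (y j) φ v ≠ 0}.Finite) :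
    proximity S u y L φ = (∑ j, (∑ w : InfinitePlace L, (w.mult : ℝ) *
      Pool.Agent.W223.AC.lamI (y j) φ w + Pool.Agent.W223.AC.mS S (y j) φ)) /
        Module.finrank ℚ L := by
  unfold proximity
  refine congrArg (fun t : ℝ => t / Module.finrank ℚ L) ?_
  rw [Finset.sum_add_distrib]
  congr 1
  · rw [Finset.sum_comm]
    refine Finset.sum_congr rfl fun w _ => ?_
    rw [Finset.mul_sum]
    rfl
  · unfold Pool.Agent.W223.AC.mS
    rw [← finsum_sum_comm]
    · refine finsum_congr fun v => ?_
      split_ifs
      · rfl
      · rw [Finset.sum_const_zero]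
    · intro j _
      refine (hf j).subset fun v hv => ?_
      rw [Function.mem_support] at hv
      intro h
      apply hv
      rw [h, ite_self]

theorem height_eq {K : Type} [Field K] [NumberField K] (x : K) :
    Real.log (Height.mulHeight₁ x) = Module.finrank ℚ K * height x :=
  Pool.Agent.W223.AC.MK.height_eq x

/-- there are finitely many polynomials in a box -/
theorem box_finite (r B : ℕ) : {f : ℤ[X] | f.natDegree ≤ r ∧ ∀ i, |f.coeff i| ≤ B}.Finite := by
  have hinj : Set.InjOn (fun (f : ℤ[X]) (i : Fin (r + 1)) => f.coeff i)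
      {f : ℤ[X] | f.natDegree ≤ r ∧ ∀ i, |f.coeff i| ≤ B} := by
    intro f hf g hg h
    have h1 := Pool.Agent.Helper19K9.Ld.pol_of f hf.1
    have h2 := Pool.Agent.Helper19K9.Ld.pol_of g hg.1
    have h3 : (fun i : Fin (r + 1) => f.coeff i) = fun i : Fin (r + 1) => g.coeff i := h
    rw [← h1, ← h2, h3]
  refine Set.Finite.of_finite_image (f := fun (f : ℤ[X]) (i : Fin (r + 1)) => f.coeff i) ?_ hinj
  refine (Set.Finite.pi' fun _ : Fin (r + 1) => Set.finite_Icc (-(B : ℤ)) B).subset ?_
  rintro _ ⟨f, hf, rfl⟩ i
  exact abs_le.1 (hf.2 i)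

/-- **Vojta's height inequality on all curves, for every map to the line, at almost all points of
large degree.** Let `r ≥ 1` and let `F_1, …, F_q` be integral polynomials, irreducible over `ℚ` and
pairwise not proportional, of degrees at most `2 r + 1`. For every `ε > 0` there are `c > 0`, `C`
and a set `E` of integral polynomials such that for all `B ≥ 1` at most `C B ^ (r + 1 - c)`
polynomials of `E` have degree at most `r` and coefficients of absolute value at most `B`, and such
that the following holds for all `A`, `y_{j i}`.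

Let `A` be a Dedekind domain which contains `ℚ[t]` and is finite over it, of rank `N` (the ring of
functions of a smooth affine curve which is finite over the `t`-line), and let
`y_{j 0} = F_j(t), y_{j 1}, …, y_{j u_j}` be elements of the radical of the ideal `(F_j(t))`, for
example generators. There is a constant `c_A` such that for all irreducible `f ∉ E` of degree `r`,
all number fields `k = ℚ(x)` with `f(x) = 0`, all number fields `L ⊇ k`, all points `P = φ` of the
curve over `L` with `t(P) = x` and all finite sets `S` of primes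
`m_S(D, P) + (∑_j deg F_j - (∑_j dim (A / (y_{j 0}, y_{j 1}, …))) / N) h(x) + d(k) ≤
d(L) + ε h(x) + ∑_{p ∈ S} log p + c_A`. -/
theorem result (r : ℕ) (hr : 1 ≤ r) {q : ℕ} (F : Fin q → ℤ[X])
    (hirr : ∀ j, Irreducible (overQ (F j)))
    (hdist : ∀ i j, i ≠ j → ¬ Associated (overQ (F i)) (overQ (F j)))
    (hdeg : ∀ j, (F j).natDegree ≤ 2 * r + 1) (ε : ℝ) (hε : 0 < ε) :
    ∃ (E : Set ℤ[X]) (c C : ℝ), 0 < c ∧
      (∀ B : ℕ, 1 ≤ B → (InBox E r B).Finite ∧
        ((InBox E r B).ncard : ℝ) ≤ C * (B : ℝ) ^ ((r : ℝ) + 1 - c)) ∧
      ∀ (A : Type) [CommRing A] [IsDedekindDomain A] [Algebra ℚ A] [Algebra ℚ[X] A]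
        [IsScalarTower ℚ ℚ[X] A] [Module.Finite ℚ[X] A] [FaithfulSMul ℚ[X] A]
        (u : Fin q → ℕ) (y : ∀ j, Fin (u j + 1) → A), (∀ j, y j 0 = pullback A (F j)) →
        (∀ j i, y j i ∈ (Ideal.span {pullback A (F j)}).radical) →
        ∃ cA : ℝ, ∀ f : ℤ[X], f ∉ E → Irreducible f → f.natDegree = r →
          ∀ (k : Type) [Field k] [NumberField k] (x : k), ℚ⟮x⟯ = ⊤ → aeval x f = 0 →
          ∀ (L : Type) [Field L] [NumberField L] [Algebra k L] (φ : A →+* L),
            φ (coord A) = algebraMap k L x → ∀ S : Finset ℕ, (∀ p ∈ S, p.Prime) →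
            proximity S u y L φ + degree F u y * height x + logDisc k ≤
              logDisc L + ε * height x + ∑ p ∈ S, Real.log p + cA := by
  classical
  obtain ⟨E, c, C, hc, hC, hcount, h⟩ := Pool.Agent.Helper19K9.Ld.main F hirr hdist r hr hdeg hε
  refine ⟨E, c, C, hc, ?_, ?_⟩
  · intro B hB
    have hfin : (InBox E r B).Finite := (box_finite r B).subset fun f hf => hf.2
    refine ⟨hfin, ?_⟩
    rw [Set.ncard_eq_toFinset_card _ hfin]
    exact hcount B hB hfin.toFinset fun f hf => (Set.Finite.mem_toFinset hfin).1 hf
  · intro A _ _ _ _ _ _ _ u y hy0 hyr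
    have hn1 : ∀ j, 1 ≤ (F j).natDegree := by
      intro j
      have h1 := (hirr j).natDegree_pos
      unfold overQ at h1
      rwa [natDegree_map_eq_of_injective (Int.castRingHom ℚ).injective_int] at h1
    have hlam := fun j => Pool.Agent.Helper19K9.Ld.lam_le A (F j) (hn1 j) (u j) (y j) (hy0 j)
      one_pos
    obtain ⟨cA, hcA⟩ := h A u y hy0 hyr
    refine ⟨cA, ?_⟩
    intro f hfE hf hfr k _ _ x hgen hx L _ _ _ φ hφ S hS
    have hfd : f.natDegree = Module.finrank ℚ k := by
      have hint : IsIntegral ℚ x := Algebra.IsIntegral.isIntegral x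
      have h1 : Module.finrank ℚ ℚ⟮x⟯ = (minpoly ℚ x).natDegree := adjoin.finrank hint
      rw [hgen, finrank_top'] at h1
      rw [h1]
      have hprim : f.IsPrimitive := hf.isPrimitive (by omega)
      have hfQ : Irreducible (f.map (algebraMap ℤ ℚ)) :=
        (hprim.irreducible_iff_irreducible_map_fraction_map).1 hf
      have h2 : aeval x (f.map (algebraMap ℤ ℚ)) = 0 := by rw [aeval_map_algebraMap]; exact hx
      have h3 : Associated (minpoly ℚ x) (f.map (algebraMap ℤ ℚ)) :=
        (minpoly.irreducible hint).associated_of_dvd hfQ (minpoly.dvd ℚ x h2)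
      rw [natDegree_eq_of_degree_eq (degree_eq_degree_of_associated h3),
        natDegree_map_eq_of_injective (algebraMap ℤ ℚ).injective_int]
    obtain ⟨h1, h2⟩ := hcA k L φ x f hfE hgen hf hfd hfr hx hφ S hS
    have hk0 : (Module.finrank ℚ k : ℝ) ≠ 0 := by
      exact_mod_cast (Module.finrank_pos (R := ℚ) (M := k)).ne'
    have hhx : Real.log (Height.mulHeight₁ x) / Module.finrank ℚ k = height x := by
      rw [height_eq, mul_div_cancel_left₀ _ hk0]
    have hprox := proximity_eq S u y L φ fun j => by
      obtain ⟨C', hC', h5⟩ := hlam j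
      exact (h5 L φ (h1 j)).1
    rw [hhx, ← hprox] at h2
    exact h2

end Pool.Agent.Results.MP_6f1c57_nt.EveryMapLargeDegree
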